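import Pool.Agent.Helper12_UNF.Stmts2

set_option autoImplicit false

/-!
# Squad UNF, module CF4: the excluded configuration
-/

namespace Unf.H99

open Unf Art

theorem ox_mul_self {k : ℕ} (i : Fin k) : ox i * ox i = (1 : O k) :=
  (Om k).toCoxeterSystem.simple_mul_simple_self i

theorem wp_append {k : ℕ} (l l' : List (Fin k)) : wp (l ++ l') = wp l * wp l' := by
  simp [wp]

theorem wp_cons {k : ℕ} (i : Fin k) (l : List (Fin k)) : wp (i :: l) = ox i * wp l := by
  simp [wp]

theorem wp_nil {k : ℕ} : wp ([] : List (Fin k)) = 1 := rfl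

theorem ox_inv {k : ℕ} (i : Fin k) : (ox i)⁻¹ = (ox i : O k) :=
  inv_eq_of_mul_eq_one_left (ox_mul_self i)

theorem wp_inv {k : ℕ} (l : List (Fin k)) : (wp l)⁻¹ = wp l.reverse := by
  induction l with
  | nil => simp [wp]
  | cons a l ih =>
    rw [wp_cons, mul_inv_rev, ih, List.reverse_cons, wp_append, wp_cons, wp_nil, mul_one, ox_inv]

theorem rw_reverse {k : ℕ} {l : List (Fin k)} (h : Rw l) : Rw l.reverse := by
  unfold Rw at *
  rw [List.isChain_reverse]
  refine h.imp ?_
  intro a b hab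
  exact hab.symm

theorem rw_pal {k : ℕ} {w : List (Fin k)} {i : Fin k} (h : Rw (w ++ [i])) :
    Rw (w ++ [i] ++ w.reverse) := by
  have h1 : Rw ([i] ++ w.reverse) := by
    have := rw_reverse h
    simpa using this
  unfold Rw at *
  rw [List.append_assoc]
  rw [List.isChain_append] at h ⊢
  refine ⟨h.1, h1, ?_⟩
  intro x hx y hy
  have : y = i := by simpa using hy.symm
  subst this
  exact h.2.2 x hx y (by simp)

theorem cone_of {k : ℕ} {A : O k} {w : List (Fin k)} {i : Fin k} (h : HW A w i)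
    {p : List (Fin k)} (hp : p <+: (w ++ [i])) : Cone p A := by
  obtain ⟨u, hu⟩ := hp
  refine ⟨u ++ w.reverse, ?_, ?_⟩
  · rw [← List.append_assoc, hu]
    exact rw_pal h.1
  · rw [← List.append_assoc, hu, wp_append, wp_append, wp_cons, wp_nil, mul_one, ← wp_inv, h.2]

theorem swap_cone (hn : NfoStmt) {k : ℕ} {B A : O k} {w : List (Fin k)} {i : Fin k}
    (hB : HW B w i) (hA : Cone (w ++ [i]) A) (hBA : Cone (w ++ [i]) (B * A)) : False := by
  obtain ⟨r, hr, hrA⟩ := hA
  obtain ⟨q, hq, hqA⟩ := hBA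
  -- A = wp (w ++ i :: r), B * A = wp (w ++ i :: q)
  have e1 : B * A = wp w * wp r := by
    rw [← hrA, hB.2, List.append_assoc, wp_append w, List.singleton_append, wp_cons]
    have : wp w * ox i * (wp w)⁻¹ * (wp w * (ox i * wp r)) = wp w * (ox i * ox i) * wp r := by
      group
    rw [this, ox_mul_self, mul_one]
  have e2 : wp r = wp (i :: q) := by
    have : wp w * wp r = wp w * wp (i :: q) := by
      rw [← e1, ← hqA, List.append_assoc, wp_append w, List.singleton_append]
    exact mul_left_cancel this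
  have hr' : Rw (i :: r) := by
    unfold Rw at *
    rw [List.append_assoc, List.isChain_append] at hr
    exact hr.2.1
  have hq' : Rw (i :: q) := by
    unfold Rw at *
    rw [List.append_assoc, List.isChain_append] at hq
    exact hq.2.1
  have hr'' : Rw r := by
    unfold Rw at *
    exact hr'.tail
  have e3 : r = i :: q := (hn k (wp r)).unique ⟨hr'', rfl⟩ ⟨hq', e2.symm⟩
  rw [e3] at hr'
  unfold Rw at hr'
  rw [List.isChain_cons_cons] at hr'
  exact hr'.1 rfl

theorem cf4 (hord : OrdStmt) (hn : NfoStmt) : Cf4Stmt := by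
  intro n Ψ hΨ a i j k hij hjk ⟨h1, h2⟩
  obtain ⟨lt, _, _, hconv, hloc, hinv⟩ := hord n
  obtain ⟨w, b, wA, iA, hB, hA, hpA⟩ := h1
  obtain ⟨w', b', wC, iC, hB', hC, hpC⟩ := h2
  -- the half words of B agree
  have hww : w ++ [b] ++ w.reverse = w' ++ [b'] ++ w'.reverse := by
    refine (hn (n + 1) (Ψ a (ox j))).unique ⟨rw_pal hB.1, ?_⟩ ⟨rw_pal hB'.1, ?_⟩
    · rw [wp_append, wp_append, wp_cons, wp_nil, mul_one, ← wp_inv, hB.2]
    · rw [wp_append, wp_append, wp_cons, wp_nil, mul_one, ← wp_inv, hB'.2]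
  have hlen : w.length = w'.length := by
    have := congrArg List.length hww
    simp at this
    omega
  have hpre : w ++ [b] = w' ++ [b'] := by
    have := (List.append_inj hww (by simp [hlen])).1
    exact this
  have hpC' : (w ++ [b]) <+: wC := by rw [hpre]; exact hpC
  have cB : Cone (w ++ [b]) (Ψ a (ox j)) := cone_of hB (List.prefix_refl _)
  have cA : Cone (w ++ [b]) (Ψ a (ox i)) := cone_of hA (hpA.trans (List.prefix_append _ _))
  have cC : Cone (w ++ [b]) (Ψ a (ox k)) := cone_of hC (hpC'.trans (List.prefix_append _ _))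
  have nf1 : ∀ l : List (Fin (n + 1)), Rw l → wp l = 1 → l = [] := by
    intro l hl h
    exact (hn (n + 1) 1).unique ⟨hl, h⟩ ⟨by unfold Rw; exact List.IsChain.nil, rfl⟩
  have ox1 : ∀ i : Fin (n + 1), (ox i : O (n + 1)) ≠ 1 := by
    intro i h
    have := nf1 [i] (by unfold Rw; exact List.IsChain.singleton _) (by rw [wp_cons, wp_nil, mul_one, h])
    simp at this
  have oji : (ox j * ox i : O (n + 1)) ≠ 1 := by
    intro h
    have hne : j ≠ i := by
      intro h'
      rw [h'] at hij
      omega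
    have := nf1 [j, i] (by unfold Rw; simp [hne]) (by rw [wp_cons, wp_cons, wp_nil, mul_one, h])
    simp at this
  have l1 := hinv Ψ hΨ a _ _ (ox1 j) oji (hloc i j k hij hjk).1
  have l2 := hinv Ψ hΨ a _ _ oji (ox1 k) (hloc i j k hij hjk).2
  rw [map_mul] at l1 l2
  have hc := hconv (w ++ [b]) _ _ _ (by simp) cB cC l1 l2
  exact swap_cone hn hB cA hc

end Unf.H99
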