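import Pool.Agent.Helper12_UNF.Stmts

set_option autoImplicit false

/-!
# Squad UNF, module FNI: the dihedral groups are finite
-/

namespace Unf.H99

open Unf Art

theorem dih_finite {G : Type} [Group G] (s t : G) (hs : s * s = 1) (ht : t * t = 1) (n : ℕ)
    (hn : 0 < n) (hr : (s * t) ^ n = 1)
    (hgen : Subgroup.closure ({s, t} : Set G) = ⊤) : Finite G := by
  have hsi : s⁻¹ = s := inv_eq_of_mul_eq_one_left hs
  have hti : t⁻¹ = t := inv_eq_of_mul_eq_one_left ht
  have hof : IsOfFinOrder (s * t) := isOfFinOrder_iff_pow_eq_one.2 ⟨n, hn, hr⟩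
  have hfz : Finite (Subgroup.zpowers (s * t)) := by
    have := hof.finite_zpowers
    exact this
  -- conjugation
  have hsr : ∀ k : ℤ, s * (s * t) ^ k = (s * t) ^ (-k) * s := by
    intro k
    have h1 : s * (s * t) * s⁻¹ = (s * t)⁻¹ := by
      rw [hsi, mul_inv_rev, hsi, hti]
      rw [← mul_assoc s s t, hs, one_mul]
    have h2 : s * (s * t) ^ k * s⁻¹ = ((s * t)⁻¹) ^ k := by
      rw [← h1, conj_zpow]
    rw [zpow_neg, ← inv_zpow, ← h2]
    group
  have htr : t = s * (s * t) ^ (1 : ℤ) := by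
    rw [zpow_one, ← mul_assoc, hs, one_mul]
  have key : ∀ g : G, ∃ k : ℤ, g = (s * t) ^ k ∨ g = (s * t) ^ k * s := by
    intro g
    have hg : g ∈ Subgroup.closure ({s, t} : Set G) := by rw [hgen]; trivial
    have hs' : ∀ g : G, (∃ k : ℤ, g = (s * t) ^ k ∨ g = (s * t) ^ k * s) →
        ∃ k : ℤ, s * g = (s * t) ^ k ∨ s * g = (s * t) ^ k * s := by
      rintro g ⟨k, rfl | rfl⟩
      · exact ⟨-k, Or.inr (hsr k)⟩
      · refine ⟨-k, Or.inl ?_⟩
        rw [← mul_assoc, hsr, mul_assoc, hs, mul_one]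
    have ht' : ∀ g : G, (∃ k : ℤ, g = (s * t) ^ k ∨ g = (s * t) ^ k * s) →
        ∃ k : ℤ, t * g = (s * t) ^ k ∨ t * g = (s * t) ^ k * s := by
      rintro g ⟨k, hk⟩
      have h3 : ∃ k : ℤ, (s * t) * g = (s * t) ^ k ∨ (s * t) * g = (s * t) ^ k * s := by
        rcases hk with rfl | rfl
        · exact ⟨1 + k, Or.inl (by rw [zpow_add, zpow_one])⟩
        · exact ⟨1 + k, Or.inr (by rw [zpow_add, zpow_one]; simp only [mul_assoc])⟩
      obtain ⟨l, hl⟩ := hs' _ h3
      refine ⟨l, ?_⟩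
      have h4 : s * (s * t * g) = t * g := by
        rw [← mul_assoc, ← mul_assoc, hs, one_mul]
      rwa [h4] at hl
    refine Subgroup.closure_induction_left (p := fun x _ => ∃ k : ℤ, x = (s * t) ^ k ∨
      x = (s * t) ^ k * s) ⟨0, Or.inl (by simp)⟩ ?_ ?_ hg
    · intro x hx y _ hy
      rcases hx with rfl | rfl
      · exact hs' y hy
      · exact ht' y hy
    · intro x hx y _ hy
      rcases hx with rfl | rfl
      · rw [hsi]; exact hs' y hy
      · rw [hti]; exact ht' y hy
  let f : (Subgroup.zpowers (s * t)) × Bool → G := fun p => if p.2 then p.1.1 * s else p.1.1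
  refine Finite.of_surjective f ?_
  intro g
  obtain ⟨k, hk | hk⟩ := key g
  · exact ⟨(⟨(s * t) ^ k, ⟨k, rfl⟩⟩, false), by simp [f, hk]⟩
  · exact ⟨(⟨(s * t) ^ k, ⟨k, rfl⟩⟩, true), by simp [f, hk]⟩

theorem fni : FniStmt := by
  intro m
  let cs := (CoxeterMatrix.I m).toCoxeterSystem
  refine dih_finite (cs.simple 0) (cs.simple 1) (cs.simple_mul_simple_self 0)
    (cs.simple_mul_simple_self 1) (m + 2) (by omega) ?_ ?_
  · have := cs.simple_mul_simple_pow 0 1
    simpa [CoxeterMatrix.I] using this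
  · have h0 : ({cs.simple 0, cs.simple 1} : Set (CoxeterMatrix.I m).Group) =
        Set.range cs.simple := by
      ext x
      simp only [Set.mem_insert_iff, Set.mem_singleton_iff, Set.mem_range]
      constructor
      · rintro (rfl | rfl)
        · exact ⟨0, rfl⟩
        · exact ⟨1, rfl⟩
      · rintro ⟨i, rfl⟩
        fin_cases i
        · exact Or.inl rfl
        · exact Or.inr rfl
    rw [h0]
    exact cs.subgroup_closure_range_simple

end Unf.H99
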